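import Pool.Agent.Helper63.TH.Goals
import Pool.Agent.Helper63.P705.BS.MomF

/-!
# MP_705522_gt, thresholds, packet SLP: slopes of the moments on a cell
-/

namespace Pool.Agent.Helper20.TH

open Set
open Pool.Agent.Helper53.PT
open Pool.Agent.Helper63.TH
open Pool.Agent.Helper63.P705 (NumOK momN momF momN_eq m3N)

theorem nadd (a b : ℕ) : Nat.add a b = a + b := by cases b <;> rfl
theorem nsub (a b : ℕ) : Nat.sub a b = a - b := by cases b <;> rfl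
theorem nsucc (a : ℕ) : Nat.succ a = a + 1 := by cases a <;> rfl
theorem shl (a n : ℕ) : Nat.shiftLeft a n = a * 2 ^ n := Nat.shiftLeft_eq a n

/-- difference quotients of a convex function -/
theorem slope_le {f : ℝ → ℝ} {s : Set ℝ} (hf : ConvexOn ℝ s f) {a b c d : ℝ} (ha : a ∈ s)
    (hd : d ∈ s) (hab : a < b) (hbc : b ≤ c) (hcd : c < d) (hc : c ∈ s) (hb : b ∈ s) :
    (f b - f a) / (b - a) ≤ (f d - f c) / (d - c) := by
  rcases hbc.lt_or_eq with h | h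
  · exact (hf.slope_mono_adjacent ha hc hab h).trans (hf.slope_mono_adjacent hb hd h hcd)
  · subst h
    exact hf.slope_mono_adjacent ha hd hab hcd

/-- upper bound to the left -/
theorem up {f : ℝ → ℝ} (hf : ConvexOn ℝ (Ioc 0 (1 / 2)) f) (a : ℕ) (h1 : 2048 ≤ a)
    (h2 : a ≤ 4094) {θ θ' : ℝ} (h0 : 0 < θ) (h : θ ≤ θ') (hθ : θ' ≤ (a : ℝ) / 8192) :
    f θ' - f θ ≤ (θ' - θ) * ((f (((a + 1 : ℕ) : ℝ) / 8192) - f ((a : ℝ) / 8192)) * 8192) := by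
  rcases h.lt_or_eq with hlt | heq
  · have ha1 : (2048 : ℝ) ≤ a := by exact_mod_cast h1
    have ha2 : (a : ℝ) ≤ 4094 := by exact_mod_cast h2
    have e : (((a + 1 : ℕ) : ℝ) / 8192) = (a : ℝ) / 8192 + 1 / 8192 := by push_cast; ring
    have hs := slope_le hf (a := θ) (b := θ') (c := (a : ℝ) / 8192)
      (d := ((a + 1 : ℕ) : ℝ) / 8192) ⟨h0, by linarith⟩ ⟨by rw [e]; linarith, by rw [e]; linarith⟩
      hlt hθ (by rw [e]; linarith) ⟨by linarith, by linarith⟩ ⟨by linarith, by linarith⟩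
    have hd : ((a + 1 : ℕ) : ℝ) / 8192 - (a : ℝ) / 8192 = 1 / 8192 := by rw [e]; ring
    rw [hd, div_le_iff₀ (by linarith)] at hs
    have e2 : (f (((a + 1 : ℕ) : ℝ) / 8192) - f ((a : ℝ) / 8192)) / (1 / 8192) * (θ' - θ) =
      (θ' - θ) * ((f (((a + 1 : ℕ) : ℝ) / 8192) - f ((a : ℝ) / 8192)) * 8192) := by ring
    linarith
  · subst heq; simp

/-- lower bound to the right -/
theorem dn {f : ℝ → ℝ} (hf : ConvexOn ℝ (Ioc 0 (1 / 2)) f) (a : ℕ) (h1 : 2048 ≤ a)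
    (h2 : a ≤ 4094) {θ θ' : ℝ} (h0 : (a : ℝ) / 8192 ≤ θ) (h : θ ≤ θ') (hθ : θ' ≤ 1 / 2) :
    (θ' - θ) * ((f ((a : ℝ) / 8192) - f (((a - 1 : ℕ) : ℝ) / 8192)) * 8192) ≤ f θ' - f θ := by
  rcases h.lt_or_eq with hlt | heq
  · have ha1 : (2048 : ℝ) ≤ a := by exact_mod_cast h1
    have ha2 : (a : ℝ) ≤ 4094 := by exact_mod_cast h2
    have e : (((a - 1 : ℕ) : ℝ) / 8192) = (a : ℝ) / 8192 - 1 / 8192 := by
      rw [Nat.cast_sub (by omega)]; push_cast; ring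
    have hs := slope_le hf (a := ((a - 1 : ℕ) : ℝ) / 8192) (b := (a : ℝ) / 8192) (c := θ)
      (d := θ') ⟨by rw [e]; linarith, by rw [e]; linarith⟩ ⟨by linarith, hθ⟩
      (by rw [e]; linarith) h0 hlt ⟨by linarith, by linarith⟩ ⟨by linarith, by linarith⟩
    have hd : (a : ℝ) / 8192 - ((a - 1 : ℕ) : ℝ) / 8192 = 1 / 8192 := by rw [e]; ring
    rw [hd, le_div_iff₀ (by linarith)] at hs
    have e2 : (f ((a : ℝ) / 8192) - f (((a - 1 : ℕ) : ℝ) / 8192)) / (1 / 8192) * (θ' - θ) =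
      (θ' - θ) * ((f ((a : ℝ) / 8192) - f (((a - 1 : ℕ) : ℝ) / 8192)) * 8192) := by ring
    linarith
  · subst heq; simp

theorem numU {m1 m0 : ℝ} (N1 N0 : ℕ) (h1 : |(N1 : ℝ) / 2 ^ 40 - m1| ≤ 2⁻¹ ^ 39)
    (h0 : |(N0 : ℝ) / 2 ^ 40 - m0| ≤ 2⁻¹ ^ 39) : (m1 - m0) * 8192 ≤ vR ((N1 + 4 - N0) * 2 ^ 13) := by
  rw [abs_le] at h1 h0
  have hs : ((N1 : ℝ) + 4 - N0) ≤ ((N1 + 4 - N0 : ℕ) : ℝ) := by
    rcases Nat.le_total N0 (N1 + 4) with h | h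
    · rw [Nat.cast_sub h]; push_cast; linarith
    · have h' : ((N1 + 4 : ℕ) : ℝ) ≤ N0 := by exact_mod_cast h
      rw [Nat.sub_eq_zero_of_le h]
      push_cast at h' ⊢
      linarith
  have e : (2⁻¹ : ℝ) ^ 39 = 2 / 2 ^ 40 := by norm_num
  rw [e] at h1 h0
  unfold vR
  push_cast
  have h3 : m1 - m0 ≤ ((N1 : ℝ) + 4 - N0) / 2 ^ 40 := by
    have : ((N1 : ℝ) + 4 - N0) / 2 ^ 40 = (N1 : ℝ) / 2 ^ 40 - N0 / 2 ^ 40 + 4 / 2 ^ 40 := by ring
    rw [this]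
    linarith [h1.1, h0.2]
  have h4 : ((N1 : ℝ) + 4 - N0) / 2 ^ 40 ≤ ((N1 + 4 - N0 : ℕ) : ℝ) / 2 ^ 40 :=
    div_le_div_of_nonneg_right hs (by positivity)
  have h5 : (m1 - m0) * 8192 ≤ ((N1 + 4 - N0 : ℕ) : ℝ) / 2 ^ 40 * 8192 := by linarith
  refine h5.trans (le_of_eq ?_)
  ring

theorem numL {m1 m0 : ℝ} (N1 N0 : ℕ) (hm : m0 ≤ m1) (h1 : |(N1 : ℝ) / 2 ^ 40 - m1| ≤ 2⁻¹ ^ 39)
    (h0 : |(N0 : ℝ) / 2 ^ 40 - m0| ≤ 2⁻¹ ^ 39) : vR ((N1 - (N0 + 4)) * 2 ^ 13) ≤ (m1 - m0) * 8192 := by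
  rw [abs_le] at h1 h0
  have e : (2⁻¹ : ℝ) ^ 39 = 2 / 2 ^ 40 := by norm_num
  rw [e] at h1 h0
  unfold vR
  rcases Nat.le_total (N0 + 4) N1 with h | h
  · push_cast [Nat.cast_sub h]
    have h3 : ((N1 : ℝ) - (N0 + 4)) / 2 ^ 40 ≤ m1 - m0 := by
      have : ((N1 : ℝ) - (N0 + 4)) / 2 ^ 40 = (N1 : ℝ) / 2 ^ 40 - N0 / 2 ^ 40 - 4 / 2 ^ 40 := by ring
      rw [this]
      linarith [h1.2, h0.1]
    have h5 : ((N1 : ℝ) - (N0 + 4)) / 2 ^ 40 * 8192 ≤ (m1 - m0) * 8192 := by linarith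
    refine (le_of_eq ?_).trans h5
    ring
  · rw [Nat.sub_eq_zero_of_le h]
    simp only [Nat.zero_mul, Nat.cast_zero, zero_div]
    nlinarith

theorem b2U_eq (a : ℕ) : b2U a = (momN (a + 1) 2 + 4 - momN a 2) * 2 ^ 13 := by
  unfold b2U
  rw [shl, nsub, nadd, nsucc, momN_eq _ 2 (by norm_num), momN_eq _ 2 (by norm_num)]

theorem b3U_eq (a : ℕ) : b3U a = (momN (a + 1) 3 + 4 - momN a 3) * 2 ^ 13 := by
  unfold b3U
  rw [shl, nsub, nadd, nsucc, momN_eq _ 3 (by norm_num), momN_eq _ 3 (by norm_num)]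

theorem bmU_eq (a : ℕ) : bmU a = (m3N (a + 1) + 4 - m3N a) * 2 ^ 13 := by
  unfold bmU
  rw [shl, nsub, nadd, nsucc]

theorem b2L_eq (a : ℕ) : b2L a = (moG a - (moG (a - 1) + 4)) * 2 ^ 13 := by
  unfold b2L
  rw [shl, nadd, nsub a 1, nsub]

theorem gSLP : GSLP := by
  intro hN hC hG
  have hN' := hN
  refine ⟨fun a h1 h2 θ θ' h0 h hθ => ?_, fun a h1 h2 θ θ' h0 h hθ => ?_⟩
  · have hd : 0 ≤ θ' - θ := by linarith
    refine ⟨?_, ?_, ?_⟩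
    · rw [b2U_eq]
      refine (up (hC.1 2 le_rfl (by norm_num)) a h1 h2 h0 h hθ).trans
        (mul_le_mul_of_nonneg_left ?_ hd)
      exact numU _ _ (hN'.mom (a + 1) (by omega) (by omega) 2 le_rfl (by norm_num))
        (hN'.mom a (by omega) (by omega) 2 le_rfl (by norm_num))
    · rw [b3U_eq]
      refine (up (hC.1 3 (by norm_num) le_rfl) a h1 h2 h0 h hθ).trans
        (mul_le_mul_of_nonneg_left ?_ hd)
      exact numU _ _ (hN'.mom (a + 1) (by omega) (by omega) 3 (by norm_num) (by norm_num))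
        (hN'.mom a (by omega) (by omega) 3 (by norm_num) (by norm_num))
    · rw [bmU_eq]
      refine (up hC.2 a h1 h2 h0 h hθ).trans (mul_le_mul_of_nonneg_left ?_ hd)
      exact numU _ _ (hN'.m3 (a + 1) (by omega) (by omega)) (hN'.m3 a (by omega) (by omega))
  · have hd : 0 ≤ θ' - θ := by linarith
    have ha1 : (2048 : ℝ) ≤ a := by exact_mod_cast h1
    have ha2 : (a : ℝ) ≤ 4094 := by exact_mod_cast h2
    rw [b2L_eq]
    refine (mul_le_mul_of_nonneg_left ?_ hd).trans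
      (dn (hC.1 2 le_rfl (by norm_num)) a h1 h2 h0 h hθ)
    have e : (((a - 1 : ℕ) : ℝ) / 8192) = (a : ℝ) / 8192 - 1 / 8192 := by
      rw [Nat.cast_sub (by omega)]; push_cast; ring
    refine numL _ _ ?_ (hG hN a (by omega) (by omega)) (hG hN (a - 1) (by omega) (by omega))
    exact mo_mono (by rw [e]; linarith) (by rw [e]; linarith) (by linarith) 2

end Pool.Agent.Helper20.TH
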